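import Mathlib

set_option autoImplicit false

namespace Pool.Agent.Results.MP_3a5480_gt.Up

open Set Filter Topology

/-- Selectively highly divergent spaces. -/
def SHD (X : Type*) [TopologicalSpace X] : Prop :=
  ∀ U : ℕ → Set X, (∀ n, IsOpen (U n) ∧ (U n).Nonempty) → ∃ x : ℕ → X, (∀ n, x n ∈ U n) ∧
    ∀ φ : ℕ → ℕ, StrictMono φ → ∀ p : X, ¬ Tendsto (x ∘ φ) atTop (𝓝 p)

/-- Non-empty finite subsets of `X`. -/
def PR (X : Type*) := {A : Set X // A.Finite ∧ A.Nonempty}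

/-- The set `[F, V]`. -/
def box {X : Type*} (F : PR X) (V : Set X) : Set (PR X) := {H | F.1 ⊆ H.1 ∧ H.1 ⊆ V}

/-- The Pixley-Roy topology. -/
instance {X : Type*} [TopologicalSpace X] : TopologicalSpace (PR X) where
  IsOpen W := ∀ F ∈ W, ∃ V : Set X, IsOpen V ∧ F.1 ⊆ V ∧ box F V ⊆ W
  isOpen_univ := fun _ _ => ⟨univ, isOpen_univ, subset_univ _, subset_univ _⟩
  isOpen_inter := by
    intro s t hs ht F hF
    obtain ⟨V, a, b, c⟩ := hs F hF.1
    obtain ⟨V', a', b', c'⟩ := ht F hF.2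
    exact ⟨V ∩ V', a.inter a', subset_inter b b', fun H h =>
      ⟨c ⟨h.1, h.2.trans inter_subset_left⟩, c' ⟨h.1, h.2.trans inter_subset_right⟩⟩⟩
  isOpen_sUnion := by
    rintro S hS F ⟨W, hW, hF⟩
    obtain ⟨V, a, b, c⟩ := hS W hW F hF
    exact ⟨V, a, b, fun H h => ⟨W, hW, c h⟩⟩

lemma box_open {X : Type*} [TopologicalSpace X] (F : PR X) {V : Set X} (hV : IsOpen V) :
    IsOpen (box F V) := fun _ hH => ⟨V, hV, hH.2, fun _ h => ⟨hH.1.trans h.1, h.2⟩⟩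

lemma avoid {X : Type*} [TopologicalSpace X] {x : ℕ → X}
    (hx : ∀ φ : ℕ → ℕ, StrictMono φ → ∀ p : X, ¬ Tendsto (x ∘ φ) atTop (𝓝 p))
    {H : Set X} (hH : H.Finite) (φ : ℕ → ℕ) (hφ : StrictMono φ) :
    ∃ V : Set X, IsOpen V ∧ H ⊆ V ∧ ∃ ψ : ℕ → ℕ, StrictMono ψ ∧ ∀ n, x (φ (ψ n)) ∉ V := by
  induction H, hH using Set.Finite.induction_on with
  | empty => exact ⟨∅, isOpen_empty, Subset.rfl, id, strictMono_id, fun _ h => h⟩
  | @insert a s _ _ ih =>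
    obtain ⟨V, hV, hs, ψ, hψ, h⟩ := ih
    have := hx (φ ∘ ψ) (hφ.comp hψ) a
    rw [(nhds_basis_opens a).tendsto_right_iff] at this
    push Not at this
    obtain ⟨W, ⟨haW, hW⟩, hf⟩ := this
    obtain ⟨χ, hχ, h'⟩ := extraction_of_frequently_atTop hf
    refine ⟨W ∪ V, hW.union hV, insert_subset (Or.inl haW) (hs.trans subset_union_right),
      ψ ∘ χ, hψ.comp hχ, fun n hn => ?_⟩
    rcases hn with hn | hn
    · exact h' n hn
    · exact h _ hn

theorem result (X : Type*) [TopologicalSpace X] (h : SHD X) : SHD (PR X) := by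
  intro U hU
  choose F hF using fun n => (hU n).2
  choose V hV hFV hb using fun n => (hU n).1 (F n) (hF n)
  obtain ⟨x, hx, hd⟩ := h V (fun n => ⟨hV n, (F n).2.2.mono (hFV n)⟩)
  refine ⟨fun n => ⟨insert (x n) (F n).1, (F n).2.1.insert _, insert_nonempty _ _⟩,
    fun n => hb n ⟨subset_insert _ _, insert_subset (hx n) (hFV n)⟩, fun φ hφ H hH => ?_⟩
  obtain ⟨W, hW, hs, ψ, hψ, h'⟩ := avoid hd H.2.1 φ hφ
  have := (hH.comp hψ.tendsto_atTop).eventually ((box_open H hW).mem_nhds ⟨Subset.rfl, hs⟩)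
  obtain ⟨n, hn⟩ := this.exists
  exact h' n (hn.2 (mem_insert _ _))

end Pool.Agent.Results.MP_3a5480_gt.Up
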